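import Pool.Agent.R537.CR.Glob

/-!
# Immersions in the unit ball with normal curvature below `√(9/5)`

Let `X` be a closed 4-manifold (compact, without boundary; no separation axiom is used) and
`f : X → Bᴺ` a smooth immersion into the closed unit ball of `ℝᴺ` with maximal normal curvature
`c(f) < √(9/5)`. Then the induced metric is conformal to a metric satisfying condition (R):
`2 Ric(u, u) < scal` for all unit vectors `u`, that is `λ₄ < λ₁ + λ₂ + λ₃`.

The conformal factor is `exp(2 ψ)` with `ψ = -(9/8) |f|²`. The proof combines the Gauss equation of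
the conformal metric, the trace inequality `|H|² + 2 |A|² ≤ 15 c²` for the restriction of the second
fundamental form to a 3-dimensional subspace, and the estimate `|x^T|² ≤ (4/5) (1 - |x|²)` for the
tangential part of the position vector, which follows from the maximum principle.
-/

set_option autoImplicit false

open scoped Manifold ContDiff

namespace Pool.Agent.Results.MP_f2e772_gt.ConformalRicciCondition

open Pool.Agent.R537.CR

theorem result {X : Type*} [TopologicalSpace X] [CompactSpace X] [ChartedSpace (Euc 4) X]
    [IsManifold 𝓘(ℝ, Euc 4) ∞ X] {N : ℕ} (f : X → Euc N) (hf : IsImmersionInBall (Euc 4) f)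
    (hc : normalCurvature (Euc 4) f < ENNReal.ofReal (√(9 / 5))) :
    ∃ ψ : X → ℝ, ContMDiff 𝓘(ℝ, Euc 4) 𝓘(ℝ) ∞ ψ ∧
      ConditionR (conformal ψ (inducedMetric (E := Euc 4) f)) :=
  main hf hc

end Pool.Agent.Results.MP_f2e772_gt.ConformalRicciCondition
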